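import Mathlib

set_option autoImplicit false

/-!
# Coarseness: packings of nonplanar graphs

Definitions (as in the starting file `MP_64ab56_co/Coarse21`) and general lemmas.
-/

namespace Pool.Agent.Y807.Coarse

open SimpleGraph

/-- `G` contains a subdivision of `H`: there are distinct branch vertices `f w` of `G`, one for
each vertex `w` of `H`, and for every edge `a b` of `H` a path of `G` from `f a` to `f b`, such
that the only branch vertices on the path are its two ends, and paths of different edges of `H`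
meet only in vertices that are ends of both. -/
def ContainsSubdivision {W V : Type} (H : SimpleGraph W) (G : SimpleGraph V) : Prop :=
  ∃ (f : W → V) (P : ∀ a b : W, H.Adj a b → G.Walk (f a) (f b)),
    Function.Injective f ∧
    (∀ a b h, (P a b h).IsPath) ∧
    (∀ a b h w, f w ∈ (P a b h).support → w = a ∨ w = b) ∧
    (∀ a b c d h h', s(a, b) ≠ s(c, d) → ∀ v, v ∈ (P a b h).support →
      v ∈ (P c d h').support → (v = f a ∨ v = f b) ∧ (v = f c ∨ v = f d))

/-- A graph is nonplanar if it contains a subdivision of `K₅` or of `K₃,₃` (Kuratowski). -/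
def Nonplanar {V : Type} (G : SimpleGraph V) : Prop :=
  ContainsSubdivision (⊤ : SimpleGraph (Fin 5)) G ∨
    ContainsSubdivision (completeBipartiteGraph (Fin 3) (Fin 3)) G

/-- There are `k` pairwise edge-disjoint nonplanar subgraphs of `G`. -/
def HasPacking {V : Type} (G : SimpleGraph V) (k : ℕ) : Prop :=
  ∃ H : Fin k → G.Subgraph, (∀ i, Nonplanar (H i).coe) ∧
    ∀ i j, i ≠ j → Disjoint (H i).edgeSet (H j).edgeSet

/-- The coarseness of `G`: the largest `k` such that `G` contains `k` pairwise edge-disjoint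
nonplanar subgraphs. -/
noncomputable def coarseness {V : Type} (G : SimpleGraph V) : ℕ :=
  sSup {k | HasPacking G k}

/-! ### Nonplanar graphs -/

theorem subdivision_of_hom {W V V' : Type} (K : SimpleGraph W) (G : SimpleGraph V)
    (G' : SimpleGraph V') (φ : G →g G') (hφ : Function.Injective φ)
    (h : ContainsSubdivision K G) : ContainsSubdivision K G' := by
  obtain ⟨f, P, hf, hp, hb, hd⟩ := h
  refine ⟨fun a => φ (f a), fun a b h => (P a b h).map φ, hφ.comp hf, ?_, ?_, ?_⟩
  · intro a b h
    exact (hp a b h).map hφ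
  · intro a b h w hw
    rw [Walk.support_map, List.mem_map] at hw
    obtain ⟨x, hx, hxe⟩ := hw
    have : x = f w := hφ hxe
    subst this
    exact hb a b h w hx
  · intro a b c d h h' hne v hv hv'
    rw [Walk.support_map, List.mem_map] at hv hv'
    obtain ⟨x, hx, rfl⟩ := hv
    obtain ⟨y, hy, hye⟩ := hv'
    have : y = x := hφ hye
    subst this
    obtain ⟨h1, h2⟩ := hd a b c d h h' hne y hx hy
    exact ⟨h1.imp (congrArg φ) (congrArg φ), h2.imp (congrArg φ) (congrArg φ)⟩

theorem nonplanar_of_hom {V V' : Type} (G : SimpleGraph V)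
    (G' : SimpleGraph V') (φ : G →g G') (hφ : Function.Injective φ)
    (h : Nonplanar G) : Nonplanar G' :=
  h.imp (subdivision_of_hom _ _ _ φ hφ) (subdivision_of_hom _ _ _ φ hφ)

theorem subdivision_of_paths {W V : Type} (H : SimpleGraph W) (G : SimpleGraph V) (f : W → V)
    (hf : Function.Injective f) (w : V) (hw : ∀ a, f a ≠ w) (e0 : Sym2 W)
    (hP : ∀ a b, H.Adj a b → ∃ p : G.Walk (f a) (f b), p.IsPath ∧
      ∀ v ∈ p.support, v = f a ∨ v = f b ∨ (v = w ∧ s(a, b) = e0)) :
    ContainsSubdivision H G := by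
  choose P hp hs using hP
  refine ⟨f, P, hf, hp, ?_, ?_⟩
  · intro a b h x hx
    rcases hs a b h _ hx with h1 | h1 | h1
    · exact Or.inl (hf h1)
    · exact Or.inr (hf h1)
    · exact absurd h1.1 (hw x)
  · intro a b c d h h' hne v hv hv'
    have h1 := hs a b h v hv
    have h2 := hs c d h' v hv'
    by_cases hvw : v = w
    · exfalso
      have e1 : s(a, b) = e0 := by
        rcases h1 with h1 | h1 | h1
        · exact absurd (h1.symm.trans hvw) (hw a)
        · exact absurd (h1.symm.trans hvw) (hw b)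
        · exact h1.2
      have e2 : s(c, d) = e0 := by
        rcases h2 with h2 | h2 | h2
        · exact absurd (h2.symm.trans hvw) (hw c)
        · exact absurd (h2.symm.trans hvw) (hw d)
        · exact h2.2
      exact hne (e1.trans e2.symm)
    · constructor
      · rcases h1 with h1 | h1 | h1
        · exact Or.inl h1
        · exact Or.inr h1
        · exact absurd h1.1 hvw
      · rcases h2 with h2 | h2 | h2
        · exact Or.inl h2
        · exact Or.inr h2
        · exact absurd h2.1 hvw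

/-- A graph containing `K₃,₃` with one edge replaced by a path of length two is nonplanar. -/
theorem nonplanar_of_sub {V : Type} (G : SimpleGraph V) (a b : Fin 3 → V) (w : V)
    (hinj : Function.Injective (Sum.elim a b)) (hw : ∀ x, Sum.elim a b x ≠ w)
    (h : ∀ x y, (x ≠ 0 ∨ y ≠ 0) → G.Adj (a x) (b y)) (h1 : G.Adj (a 0) w) (h2 : G.Adj w (b 0)) :
    Nonplanar G := by
  right
  have hne : a 0 ≠ b 0 := fun e => by
    have := @hinj (Sum.inl 0) (Sum.inr 0) e
    exact absurd this Sum.inl_ne_inr
  refine subdivision_of_paths _ G (Sum.elim a b) hinj w hw s(Sum.inl 0, Sum.inr 0) ?_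
  have key : ∀ x y, ∃ p : G.Walk (a x) (b y), p.IsPath ∧
      ∀ v ∈ p.support, v = a x ∨ v = b y ∨
        (v = w ∧ (s(Sum.inl x, Sum.inr y) : Sym2 (Fin 3 ⊕ Fin 3)) = s(Sum.inl 0, Sum.inr 0)) := by
    intro x y
    by_cases hxy : x ≠ 0 ∨ y ≠ 0
    · refine ⟨(h x y hxy).toWalk, Walk.IsPath.of_adj (h x y hxy), ?_⟩
      intro v hv
      simp only [Adj.toWalk, Walk.support_cons, Walk.support_nil, List.mem_cons,
        List.not_mem_nil, or_false] at hv
      rcases hv with hv | hv
      · exact Or.inl hv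
      · exact Or.inr (Or.inl hv)
    · push Not at hxy
      obtain ⟨rfl, rfl⟩ := hxy
      refine ⟨Walk.cons h1 (Walk.cons h2 Walk.nil), ?_, ?_⟩
      · rw [Walk.cons_isPath_iff, Walk.cons_isPath_iff]
        refine ⟨⟨Walk.IsPath.nil, ?_⟩, ?_⟩
        · simp only [Walk.support_nil, List.mem_singleton]
          exact h2.ne
        · simp only [Walk.support_cons, Walk.support_nil, List.mem_cons, List.not_mem_nil,
            or_false, not_or]
          exact ⟨h1.ne, hne⟩
      · intro v hv
        simp only [Walk.support_cons, Walk.support_nil, List.mem_cons, List.not_mem_nil,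
          or_false] at hv
        rcases hv with hv | hv | hv
        · exact Or.inl hv
        · exact Or.inr (Or.inr ⟨hv, rfl⟩)
        · exact Or.inr (Or.inl hv)
  intro u v huv
  rcases u with x | x <;> rcases v with y | y
  · simp at huv
  · exact key x y
  · obtain ⟨p, hp, hs⟩ := key y x
    refine ⟨p.reverse, hp.reverse, ?_⟩
    intro z hz
    have h5 : z ∈ (Walk.reverse p).support := hz
    rw [Walk.support_reverse, List.mem_reverse] at h5
    rcases hs z h5 with h3 | h3 | ⟨h3, h4⟩
    · exact Or.inr (Or.inl h3)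
    · exact Or.inl h3
    · exact Or.inr (Or.inr ⟨h3, by rw [Sym2.eq_swap]; exact h4⟩)
  · simp at huv

theorem nonplanar_of_K33 {V : Type} (G : SimpleGraph V) (a b : Fin 3 → V)
    (hinj : Function.Injective (Sum.elim a b)) (h : ∀ x y, G.Adj (a x) (b y)) :
    Nonplanar G := by
  right
  have hP : ∀ u v, (completeBipartiteGraph (Fin 3) (Fin 3)).Adj u v →
      G.Adj (Sum.elim a b u) (Sum.elim a b v) := by
    intro u v huv
    rcases u with x | x <;> rcases v with y | y
    · simp at huv
    · exact h x y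
    · exact (h y x).symm
    · simp at huv
  refine ⟨Sum.elim a b, fun u v huv => (hP u v huv).toWalk, hinj, ?_, ?_, ?_⟩
  · intro u v huv
    exact Walk.IsPath.of_adj (hP u v huv)
  · intro u v huv w hw
    simp only [Adj.toWalk, Walk.support_cons, Walk.support_nil, List.mem_cons,
      List.not_mem_nil, or_false] at hw
    rcases hw with hw | hw
    · exact Or.inl (hinj hw)
    · exact Or.inr (hinj hw)
  · intro u v c d huv hcd _ z hz hz'
    simp only [Adj.toWalk, Walk.support_cons, Walk.support_nil, List.mem_cons,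
      List.not_mem_nil, or_false] at hz hz'
    exact ⟨hz, hz'⟩

/-! ### Every nonplanar graph has nine edges -/

theorem exists_edge_of_walk {V : Type} {G : SimpleGraph V} {u v : V} (p : G.Walk u v)
    (h : u ≠ v) : ∃ x y, G.Adj x y ∧ x ∈ p.support ∧ y ∈ p.support := by
  cases p with
  | nil => exact absurd rfl h
  | cons hadj q =>
    refine ⟨_, _, hadj, ?_, ?_⟩
    · simp
    · simp

theorem edges_of_subdivision {W V : Type} (H : SimpleGraph W) (G : SimpleGraph V)
    (h : ContainsSubdivision H G) (n : ℕ) (p q : Fin n → W) (hpq : ∀ i, H.Adj (p i) (q i))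
    (hinj : ∀ i j, s(p i, q i) = s(p j, q j) → i = j) :
    ∃ e : Fin n → Sym2 V, Function.Injective e ∧ ∀ i, e i ∈ G.edgeSet := by
  obtain ⟨f, P, hf, -, -, hd⟩ := h
  have hex : ∀ i, ∃ x y, G.Adj x y ∧ x ∈ (P _ _ (hpq i)).support ∧
      y ∈ (P _ _ (hpq i)).support := fun i =>
    exists_edge_of_walk _ (fun e => (hpq i).ne (hf e))
  choose x y hxy hx hy using hex
  refine ⟨fun i => s(x i, y i), ?_, fun i => hxy i⟩
  intro i j hij
  by_contra hne
  have hne' : s(p i, q i) ≠ s(p j, q j) := fun e => hne (hinj i j e)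
  have hij' : s(x i, y i) = s(x j, y j) := hij
  have hxj : x i ∈ (P _ _ (hpq j)).support ∧ y i ∈ (P _ _ (hpq j)).support := by
    rw [Sym2.eq_iff] at hij'
    rcases hij' with ⟨h1, h2⟩ | ⟨h1, h2⟩
    · rw [h1, h2]; exact ⟨hx j, hy j⟩
    · rw [h1, h2]; exact ⟨hy j, hx j⟩
  obtain ⟨a1, a2⟩ := hd _ _ _ _ (hpq i) (hpq j) hne' _ (hx i) hxj.1
  obtain ⟨b1, b2⟩ := hd _ _ _ _ (hpq i) (hpq j) hne' _ (hy i) hxj.2
  have hxyne := (hxy i).ne
  have e1 : s(x i, y i) = s(f (p i), f (q i)) := by
    rw [Sym2.eq_iff]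
    rcases a1 with a1 | a1 <;> rcases b1 with b1 | b1
    · exact absurd (a1.trans b1.symm) hxyne
    · exact Or.inl ⟨a1, b1⟩
    · exact Or.inr ⟨a1, b1⟩
    · exact absurd (a1.trans b1.symm) hxyne
  have e2 : s(x i, y i) = s(f (p j), f (q j)) := by
    rw [Sym2.eq_iff]
    rcases a2 with a2 | a2 <;> rcases b2 with b2 | b2
    · exact absurd (a2.trans b2.symm) hxyne
    · exact Or.inl ⟨a2, b2⟩
    · exact Or.inr ⟨a2, b2⟩
    · exact absurd (a2.trans b2.symm) hxyne
  have e3 : Sym2.map f s(p i, q i) = Sym2.map f s(p j, q j) := by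
    rw [Sym2.map_mk, Sym2.map_mk]
    exact e1.symm.trans e2
  exact hne' (Sym2.map.injective hf e3)

theorem nine_edges {V : Type} (G : SimpleGraph V) (h : Nonplanar G) :
    ∃ e : Fin 9 → Sym2 V, Function.Injective e ∧ ∀ i, e i ∈ G.edgeSet := by
  rcases h with h | h
  · exact edges_of_subdivision _ G h 9 ![0, 0, 0, 0, 1, 1, 1, 2, 2] ![1, 2, 3, 4, 2, 3, 4, 3, 4]
      (by decide) (by decide)
  · exact edges_of_subdivision _ G h 9
      ![Sum.inl 0, Sum.inl 0, Sum.inl 0, Sum.inl 1, Sum.inl 1, Sum.inl 1, Sum.inl 2, Sum.inl 2,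
        Sum.inl 2]
      ![Sum.inr 0, Sum.inr 1, Sum.inr 2, Sum.inr 0, Sum.inr 1, Sum.inr 2, Sum.inr 0, Sum.inr 1,
        Sum.inr 2]
      (by intro i; fin_cases i <;> simp) (by decide)

theorem packing_bound {p k : ℕ} (h : HasPacking (⊤ : SimpleGraph (Fin p)) k) :
    9 * k ≤ p.choose 2 := by
  obtain ⟨H, hH, hdis⟩ := h
  have hex := fun i => nine_edges (H i).coe (hH i)
  choose e he hmem using hex
  let g : Fin k × Fin 9 → (⊤ : SimpleGraph (Fin p)).edgeFinset := fun z =>
    ⟨Sym2.map Subtype.val (e z.1 z.2), by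
      rw [mem_edgeFinset]
      have h1 := hmem z.1 z.2
      revert h1
      generalize e z.1 z.2 = t
      induction t using Sym2.ind with
      | _ a b =>
        intro h1
        rw [mem_edgeSet] at h1
        rw [Sym2.map_mk, mem_edgeSet]
        exact (H z.1).adj_sub h1⟩
  have hsub : ∀ z : Fin k × Fin 9, Sym2.map Subtype.val (e z.1 z.2) ∈ (H z.1).edgeSet := by
    intro z
    have h1 := hmem z.1 z.2
    revert h1
    generalize e z.1 z.2 = t
    induction t using Sym2.ind with
    | _ a b =>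
      intro h1
      rw [mem_edgeSet] at h1
      rw [Sym2.map_mk]
      exact h1
  have hg : Function.Injective g := by
    rintro ⟨i, s⟩ ⟨j, t⟩ hst
    have hst' : Sym2.map Subtype.val (e i s) = Sym2.map Subtype.val (e j t) :=
      congrArg Subtype.val hst
    have hij : i = j := by
      by_contra hne
      have h1 := hsub (i, s)
      have h2 := hsub (j, t)
      simp only at h1 h2
      rw [hst'] at h1
      exact Set.disjoint_left.mp (hdis i j hne) h1 h2
    subst hij
    have := he i (Sym2.map.injective Subtype.val_injective hst')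
    rw [this]
  have hc := Fintype.card_le_of_injective g hg
  rw [Fintype.card_prod, Fintype.card_fin, Fintype.card_fin, Fintype.card_coe,
    card_edgeFinset_top_eq_card_choose_two, Fintype.card_fin] at hc
  omega

theorem packing_bddAbove (p : ℕ) : BddAbove {k | HasPacking (⊤ : SimpleGraph (Fin p)) k} := by
  refine ⟨p.choose 2, ?_⟩
  intro k hk
  have := packing_bound hk
  omega

/-! ### Packings indexed by arbitrary types -/

/-- A packing of spanning nonplanar subgraphs indexed by `ι`. -/
def Pk (ι : Type) {V : Type} (G : SimpleGraph V) : Prop :=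
  ∃ H : ι → SimpleGraph V, (∀ i, Nonplanar (H i)) ∧ (∀ i, H i ≤ G) ∧
    ∀ i j, i ≠ j → ∀ u v, (H i).Adj u v → ¬ (H j).Adj u v

theorem Pk.mono {ι V : Type} {G G' : SimpleGraph V} (h : Pk ι G) (hG : G ≤ G') : Pk ι G' := by
  obtain ⟨H, h1, h2, h3⟩ := h
  exact ⟨H, h1, fun i => (h2 i).trans hG, h3⟩

theorem Pk.reindex {ι κ V : Type} {G : SimpleGraph V} (h : Pk ι G) (e : κ ≃ ι) : Pk κ G := by
  obtain ⟨H, h1, h2, h3⟩ := h
  exact ⟨fun i => H (e i), fun i => h1 _, fun i => h2 _, fun i j hij =>
    h3 _ _ (fun he => hij (e.injective he))⟩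

theorem Pk.map {ι V W : Type} {G : SimpleGraph V} (h : Pk ι G) (φ : V ↪ W) :
    Pk ι (G.map φ) := by
  obtain ⟨H, h1, h2, h3⟩ := h
  refine ⟨fun i => (H i).map φ, fun i => ?_, fun i => ?_, fun i j hij u v hu hv => ?_⟩
  · exact nonplanar_of_hom _ _ (SimpleGraph.Embedding.map φ (H i)).toHom φ.injective (h1 i)
  · exact SimpleGraph.map_monotone φ (h2 i)
  · rw [SimpleGraph.map_adj] at hu hv
    obtain ⟨a, b, hab, rfl, rfl⟩ := hu
    obtain ⟨c, d, hcd, hc, hd⟩ := hv
    rw [φ.injective hc, φ.injective hd] at hcd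
    exact h3 i j hij a b hab hcd

theorem Pk.sum {ι κ V : Type} {G G' K : SimpleGraph V} (h : Pk ι G) (h' : Pk κ G')
    (hG : G ≤ K) (hG' : G' ≤ K) (hd : ∀ u v, G.Adj u v → ¬ G'.Adj u v) : Pk (ι ⊕ κ) K := by
  obtain ⟨H, h1, h2, h3⟩ := h
  obtain ⟨H', h1', h2', h3'⟩ := h'
  refine ⟨Sum.elim H H', ?_, ?_, ?_⟩
  · rintro (i | i)
    · exact h1 i
    · exact h1' i
  · rintro (i | i)
    · exact (h2 i).trans hG
    · exact (h2' i).trans hG'
  · rintro (i | i) (j | j) hij u v hu hv
    · exact h3 i j (fun e => hij (congrArg _ e)) u v hu hv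
    · exact hd u v (h2 i hu) (h2' j hv)
    · exact hd u v (h2 j hv) (h2' i hu)
    · exact h3' i j (fun e => hij (congrArg _ e)) u v hu hv

theorem Pk.hasPacking {V : Type} {G : SimpleGraph V} {k : ℕ} (h : Pk (Fin k) G) :
    HasPacking G k := by
  obtain ⟨H, h1, h2, h3⟩ := h
  refine ⟨fun i => SimpleGraph.toSubgraph (H i) (h2 i), ?_, ?_⟩
  · intro i
    refine nonplanar_of_hom (H i) _ ⟨fun v => ⟨v, Set.mem_univ _⟩, ?_⟩ ?_ (h1 i)
    · intro a b hab
      exact hab
    · intro a b hab
      exact congrArg Subtype.val hab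
  · intro i j hij
    rw [Set.disjoint_left]
    intro e hi hj
    induction e with
    | h u v => exact h3 i j hij u v hi hj

/-- Colour classes. -/
def colourGraph {V κ : Type} (c : V → V → κ) (hc : ∀ u v, c u v = c v u) (i : κ) :
    SimpleGraph V where
  Adj u v := u ≠ v ∧ c u v = i
  symm := ⟨fun u v h => ⟨h.1.symm, by rw [hc]; exact h.2⟩⟩
  loopless := ⟨fun _ h => h.1 rfl⟩

theorem pk_of_colour {V κ ι : Type} (c : V → V → κ) (hc : ∀ u v, c u v = c v u) (f : ι → κ)
    (hf : Function.Injective f) (h : ∀ i, Nonplanar (colourGraph c hc (f i))) :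
    Pk ι (⊤ : SimpleGraph V) := by
  refine ⟨fun i => colourGraph c hc (f i), h, fun i u v huv => huv.1, ?_⟩
  intro i j hij u v hu hv
  exact hij (hf (hu.2.symm.trans hv.2))

end Pool.Agent.Y807.Coarse
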