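import Pool.Agent.Y807.Coarse.Base

set_option autoImplicit false

/-!
# A packing of `K_25` by 33 nonplanar graphs

The colours `0, …, 29` are copies of `K₃,₃`; the colours `30, 31, 32` are copies of `K₃,₃` with one
edge subdivided by the vertex `24`.  The packing is invariant under a rotation of order three.
-/

namespace Pool.Agent.Y807.Coarse.P25

open SimpleGraph

/-- The colour table. -/
def table : List (List ℕ) :=
  [[33, 12, 14, 32, 14, 9, 24, 12, 27, 0, 32, 14, 9, 24, 12, 18, 24, 27, 9, 32, 18, 18, 27, 0, 0],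
   [12, 33, 13, 10, 30, 12, 28, 25, 13, 12, 1, 30, 13, 10, 25, 28, 19, 25, 19, 10, 30, 1, 19, 28, 1],
   [14, 13, 33, 13, 11, 31, 14, 29, 26, 31, 13, 2, 26, 14, 11, 26, 29, 20, 31, 20, 11, 29, 2, 20, 2],
   [32, 10, 13, 33, 30, 32, 24, 32, 13, 10, 1, 30, 13, 24, 21, 10, 24, 20, 21, 20, 30, 1, 21, 20, 1],
   [14, 30, 11, 30, 33, 31, 14, 25, 30, 31, 11, 2, 22, 14, 25, 18, 11, 25, 31, 22, 18, 18, 2, 22, 2],
   [9, 12, 31, 32, 31, 33, 31, 12, 26, 0, 32, 9, 26, 23, 12, 26, 19, 9, 19, 32, 23, 23, 19, 0, 0],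
   [24, 28, 14, 24, 14, 31, 33, 25, 24, 15, 6, 14, 28, 23, 25, 15, 6, 25, 31, 15, 23, 23, 28, 6, 31],
   [12, 25, 29, 32, 25, 12, 25, 33, 26, 12, 16, 7, 26, 29, 21, 26, 16, 7, 21, 32, 16, 7, 21, 29, 32],
   [27, 13, 26, 13, 30, 26, 24, 26, 33, 8, 13, 17, 22, 24, 27, 8, 24, 17, 17, 22, 30, 27, 8, 22, 30],
   [0, 12, 31, 10, 31, 0, 15, 12, 8, 33, 6, 8, 3, 10, 12, 0, 6, 15, 8, 10, 3, 15, 3, 6, 31],
   [32, 1, 13, 1, 11, 32, 6, 16, 13, 6, 33, 7, 13, 4, 11, 16, 1, 7, 4, 6, 11, 7, 16, 4, 32],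
   [14, 30, 2, 30, 2, 9, 14, 7, 17, 8, 7, 33, 9, 14, 5, 8, 17, 2, 9, 5, 7, 5, 8, 17, 30],
   [9, 13, 26, 13, 22, 26, 28, 26, 22, 3, 13, 9, 33, 23, 22, 28, 19, 9, 19, 3, 23, 23, 19, 28, 3],
   [24, 10, 14, 24, 14, 23, 23, 29, 24, 10, 4, 14, 23, 33, 21, 10, 29, 20, 21, 20, 4, 29, 21, 20, 4],
   [12, 25, 11, 21, 25, 12, 25, 21, 27, 12, 11, 5, 22, 21, 33, 18, 11, 27, 5, 22, 18, 18, 27, 22, 5],
   [18, 28, 26, 10, 18, 26, 15, 26, 8, 0, 16, 8, 28, 10, 18, 33, 16, 15, 8, 10, 16, 15, 28, 0, 0],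
   [24, 19, 29, 24, 11, 19, 6, 16, 24, 6, 1, 17, 19, 29, 11, 16, 33, 17, 17, 6, 11, 1, 16, 29, 1],
   [27, 25, 20, 20, 25, 9, 25, 7, 17, 15, 7, 2, 9, 20, 27, 15, 17, 33, 9, 15, 7, 27, 2, 17, 2],
   [9, 19, 31, 21, 31, 19, 31, 21, 17, 8, 4, 9, 19, 21, 5, 8, 17, 9, 33, 5, 4, 5, 8, 17, 4],
   [32, 10, 20, 20, 22, 32, 15, 32, 22, 10, 6, 5, 3, 20, 22, 10, 6, 15, 5, 33, 3, 15, 3, 6, 5],
   [18, 30, 11, 30, 18, 23, 23, 16, 30, 3, 11, 7, 23, 4, 18, 16, 11, 7, 4, 3, 33, 7, 16, 4, 3],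
   [18, 1, 29, 1, 18, 23, 23, 7, 27, 15, 7, 5, 23, 29, 18, 15, 1, 27, 5, 15, 7, 33, 27, 29, 5],
   [27, 19, 2, 21, 2, 19, 28, 21, 8, 3, 16, 8, 19, 21, 27, 28, 16, 2, 8, 3, 16, 27, 33, 28, 3],
   [0, 28, 20, 20, 22, 0, 6, 29, 22, 6, 4, 17, 28, 20, 22, 0, 29, 17, 17, 6, 4, 29, 28, 33, 4],
   [0, 1, 2, 1, 2, 0, 31, 32, 30, 31, 32, 30, 3, 4, 5, 0, 1, 2, 4, 5, 3, 5, 3, 4, 33]]

/-- The colour of a pair. -/
def colour (u v : Fin 25) : ℕ := (table.getD u.val []).getD v.val 0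

theorem colour_symm : ∀ u v : Fin 25, colour u v = colour v u := by decide +kernel

def tabA : List (List (Fin 25)) :=
  [[0, 5, 15],
   [1, 3, 16],
   [2, 4, 17],
   [9, 19, 24],
   [10, 20, 24],
   [11, 18, 24],
   [6, 9, 19],
   [7, 10, 20],
   [8, 11, 18],
   [0, 11, 17],
   [1, 9, 15],
   [2, 10, 16],
   [0, 5, 9],
   [1, 3, 10],
   [2, 4, 11],
   [6, 17, 21],
   [7, 15, 22],
   [8, 16, 23],
   [0, 4, 14],
   [1, 5, 12],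
   [2, 3, 13],
   [3, 7, 13],
   [4, 8, 14],
   [5, 6, 12],
   [0, 3, 8],
   [1, 4, 6],
   [2, 5, 7],
   [0, 14, 21],
   [1, 12, 22],
   [2, 13, 23],
   [11, 20, 4],
   [9, 18, 5],
   [10, 19, 3]]

def tabB : List (List (Fin 25)) :=
  [[9, 23, 24],
   [10, 21, 24],
   [11, 22, 24],
   [12, 20, 22],
   [13, 18, 23],
   [14, 19, 21],
   [10, 16, 23],
   [11, 17, 21],
   [9, 15, 22],
   [5, 12, 18],
   [3, 13, 19],
   [4, 14, 20],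
   [1, 7, 14],
   [2, 8, 12],
   [0, 6, 13],
   [9, 15, 19],
   [10, 16, 20],
   [11, 17, 18],
   [15, 20, 21],
   [16, 18, 22],
   [17, 19, 23],
   [14, 18, 22],
   [12, 19, 23],
   [13, 20, 21],
   [6, 13, 16],
   [7, 14, 17],
   [8, 12, 15],
   [8, 17, 22],
   [6, 15, 23],
   [7, 16, 21],
   [8, 1, 3],
   [6, 2, 4],
   [7, 0, 5]]

def A (i : Fin 33) (x : Fin 3) : Fin 25 := (tabA.getD i.val []).getD x.val 0

def B (i : Fin 33) (x : Fin 3) : Fin 25 := (tabB.getD i.val []).getD x.val 0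

theorem inj : ∀ i : Fin 33, ∀ s t : Fin 3 ⊕ Fin 3,
    Sum.elim (A i) (B i) s = Sum.elim (A i) (B i) t → s = t := by decide +kernel

theorem adj : ∀ i : Fin 33, ∀ x y : Fin 3, (i.val < 30 ∨ x ≠ 0 ∨ y ≠ 0) →
    A i x ≠ B i y ∧ colour (A i x) (B i y) = i.val := by decide +kernel

theorem sub : ∀ i : Fin 33, ¬ i.val < 30 →
    (A i 0 ≠ 24 ∧ colour (A i 0) 24 = i.val) ∧ (24 ≠ B i 0 ∧ colour 24 (B i 0) = i.val) ∧
    ∀ s : Fin 3 ⊕ Fin 3, Sum.elim (A i) (B i) s ≠ 24 := by decide +kernel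

theorem pk : Pk (Fin 33) (⊤ : SimpleGraph (Fin 25)) := by
  refine pk_of_colour colour colour_symm (fun i : Fin 33 => i.val) Fin.val_injective ?_
  intro i
  by_cases h : i.val < 30
  · exact nonplanar_of_K33 _ (A i) (B i) (fun s t h => inj i s t h)
      (fun x y => adj i x y (Or.inl h))
  · obtain ⟨h1, h2, h3⟩ := sub i h
    exact nonplanar_of_sub _ (A i) (B i) 24 (fun s t h => inj i s t h) h3
      (fun x y hxy => adj i x y (Or.inr hxy)) h1 h2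

end Pool.Agent.Y807.Coarse.P25
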