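import Pool.Agent.Y807.Coarse.Base

set_option autoImplicit false

/-!
# A packing of `K_34` by 62 nonplanar graphs

The colours `0, …, 58` are copies of `K₃,₃`; the colours `59, 60, 61` are copies of `K₃,₃` with one
edge subdivided by the vertex `33`.  The packing is invariant under a rotation of order three.
-/

namespace Pool.Agent.Y807.Coarse.P34

open SimpleGraph

/-- The colour table. -/
def table : List (List ℕ) :=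
  [[62, 20, 22, 25, 22, 18, 20, 20, 25, 4, 4, 4, 0, 0, 0, 18, 27, 18, 3, 3, 3, 1, 1, 1, 6, 6, 6, 2, 2, 2, 22, 27, 25, 27],
   [20, 62, 21, 19, 23, 20, 23, 21, 21, 4, 4, 4, 0, 0, 0, 19, 19, 28, 3, 3, 3, 1, 1, 1, 6, 6, 6, 2, 2, 2, 23, 20, 28, 28],
   [22, 21, 62, 21, 17, 24, 22, 24, 22, 4, 4, 4, 0, 0, 0, 26, 17, 17, 3, 3, 3, 1, 1, 1, 6, 6, 6, 2, 2, 2, 26, 24, 21, 26],
   [25, 19, 21, 62, 17, 19, 25, 21, 21, 13, 13, 13, 15, 15, 15, 29, 17, 17, 10, 10, 10, 14, 14, 14, 9, 9, 9, 19, 29, 29, 12, 12, 12, 25],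
   [22, 23, 17, 17, 62, 18, 22, 23, 22, 13, 13, 13, 15, 15, 15, 18, 30, 18, 10, 10, 10, 14, 14, 14, 9, 9, 9, 30, 17, 30, 12, 12, 12, 23],
   [18, 20, 24, 19, 18, 62, 20, 20, 24, 13, 13, 13, 15, 15, 15, 19, 19, 31, 10, 10, 10, 14, 14, 14, 9, 9, 9, 31, 31, 18, 12, 12, 12, 24],
   [20, 23, 22, 25, 22, 20, 62, 23, 25, 5, 5, 5, 33, 33, 36, 16, 16, 16, 8, 8, 8, 36, 36, 33, 7, 7, 7, 11, 11, 11, 22, 20, 25, 23],
   [20, 21, 24, 21, 23, 20, 23, 62, 24, 5, 5, 5, 37, 34, 34, 16, 16, 16, 8, 8, 8, 34, 37, 37, 7, 7, 7, 11, 11, 11, 23, 20, 21, 24],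
   [25, 21, 22, 21, 22, 24, 25, 24, 62, 5, 5, 5, 32, 35, 32, 16, 16, 16, 8, 8, 8, 35, 32, 35, 7, 7, 7, 11, 11, 11, 22, 24, 21, 25],
   [4, 4, 4, 13, 13, 13, 5, 5, 5, 62, 53, 55, 39, 34, 34, 44, 53, 55, 57, 53, 55, 34, 39, 44, 57, 39, 60, 44, 60, 57, 60, 47, 47, 47],
   [4, 4, 4, 13, 13, 13, 5, 5, 5, 53, 62, 54, 32, 40, 32, 53, 45, 54, 53, 58, 54, 45, 32, 40, 61, 58, 40, 58, 45, 61, 48, 61, 48, 48],
   [4, 4, 4, 13, 13, 13, 5, 5, 5, 55, 54, 62, 33, 33, 38, 55, 54, 46, 55, 54, 56, 38, 46, 33, 38, 59, 56, 59, 56, 46, 49, 49, 59, 49],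
   [0, 0, 0, 15, 15, 15, 33, 37, 32, 39, 32, 33, 62, 39, 38, 26, 37, 46, 32, 33, 39, 38, 46, 43, 38, 59, 37, 59, 43, 46, 26, 43, 59, 26],
   [0, 0, 0, 15, 15, 15, 33, 34, 35, 34, 40, 33, 39, 62, 40, 44, 27, 35, 40, 33, 34, 41, 39, 44, 35, 39, 60, 44, 60, 41, 60, 27, 41, 27],
   [0, 0, 0, 15, 15, 15, 36, 34, 32, 34, 32, 38, 38, 40, 62, 36, 45, 28, 32, 38, 34, 45, 42, 40, 61, 36, 40, 42, 45, 61, 42, 61, 28, 28],
   [18, 19, 26, 29, 18, 19, 16, 16, 16, 44, 53, 55, 26, 44, 36, 62, 53, 55, 26, 53, 55, 36, 36, 29, 52, 44, 60, 19, 52, 18, 60, 52, 29, 60],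
   [27, 19, 17, 17, 30, 19, 16, 16, 16, 53, 45, 54, 37, 27, 45, 53, 62, 54, 53, 27, 54, 30, 37, 37, 61, 50, 45, 19, 17, 50, 30, 61, 50, 61],
   [18, 28, 17, 17, 18, 31, 16, 16, 16, 55, 54, 46, 46, 35, 28, 55, 54, 62, 55, 54, 28, 35, 31, 35, 46, 59, 51, 51, 17, 18, 51, 31, 59, 59],
   [3, 3, 3, 10, 10, 10, 8, 8, 8, 57, 53, 55, 32, 40, 32, 26, 53, 55, 62, 53, 55, 41, 32, 40, 52, 57, 40, 57, 52, 41, 26, 52, 41, 26],
   [3, 3, 3, 10, 10, 10, 8, 8, 8, 53, 58, 54, 33, 33, 38, 53, 27, 54, 53, 62, 54, 38, 42, 33, 38, 50, 58, 42, 58, 50, 42, 27, 50, 27],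
   [3, 3, 3, 10, 10, 10, 8, 8, 8, 55, 54, 56, 39, 34, 34, 55, 54, 28, 55, 54, 62, 34, 39, 43, 56, 39, 51, 51, 43, 56, 51, 43, 28, 28],
   [1, 1, 1, 14, 14, 14, 36, 34, 35, 34, 45, 38, 38, 41, 45, 36, 30, 35, 41, 38, 34, 62, 41, 43, 35, 36, 45, 30, 43, 30, 48, 43, 48, 48],
   [1, 1, 1, 14, 14, 14, 36, 37, 32, 39, 32, 46, 46, 39, 42, 36, 37, 31, 32, 42, 39, 41, 62, 42, 46, 36, 37, 31, 31, 41, 49, 49, 41, 49],
   [1, 1, 1, 14, 14, 14, 33, 37, 35, 44, 40, 33, 43, 44, 40, 29, 37, 35, 40, 33, 43, 43, 42, 62, 35, 44, 37, 42, 29, 29, 42, 47, 47, 47],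
   [6, 6, 6, 9, 9, 9, 7, 7, 7, 57, 61, 38, 38, 35, 61, 52, 61, 46, 52, 38, 56, 35, 46, 35, 62, 57, 56, 57, 56, 46, 52, 47, 47, 47],
   [6, 6, 6, 9, 9, 9, 7, 7, 7, 39, 58, 59, 59, 39, 36, 44, 50, 59, 57, 50, 39, 36, 36, 44, 57, 62, 58, 44, 58, 57, 48, 50, 48, 48],
   [6, 6, 6, 9, 9, 9, 7, 7, 7, 60, 40, 56, 37, 60, 40, 60, 45, 51, 40, 58, 51, 45, 37, 37, 56, 58, 62, 58, 45, 56, 49, 49, 51, 49],
   [2, 2, 2, 19, 30, 31, 11, 11, 11, 44, 58, 59, 59, 44, 42, 19, 19, 51, 57, 42, 51, 30, 31, 42, 57, 44, 58, 62, 58, 57, 30, 31, 51, 59],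
   [2, 2, 2, 29, 17, 31, 11, 11, 11, 60, 45, 56, 43, 60, 45, 52, 17, 17, 52, 58, 43, 43, 31, 29, 56, 58, 45, 58, 62, 56, 52, 31, 29, 60],
   [2, 2, 2, 29, 30, 18, 11, 11, 11, 57, 61, 46, 46, 41, 61, 18, 50, 18, 41, 50, 56, 30, 41, 29, 46, 57, 56, 57, 56, 62, 30, 50, 29, 61],
   [22, 23, 26, 12, 12, 12, 22, 23, 22, 60, 48, 49, 26, 60, 42, 60, 30, 51, 26, 42, 51, 48, 49, 42, 52, 48, 49, 30, 52, 30, 62, 52, 51, 23],
   [27, 20, 24, 12, 12, 12, 20, 20, 24, 47, 61, 49, 43, 27, 61, 52, 61, 31, 52, 27, 43, 43, 49, 47, 47, 50, 49, 31, 31, 50, 52, 62, 50, 24],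
   [25, 28, 21, 12, 12, 12, 25, 21, 21, 47, 48, 59, 59, 41, 28, 29, 50, 59, 41, 50, 28, 48, 41, 47, 47, 48, 51, 51, 29, 29, 51, 50, 62, 25],
   [27, 28, 26, 25, 23, 24, 23, 24, 25, 47, 48, 49, 26, 27, 28, 60, 61, 59, 26, 27, 28, 48, 49, 47, 47, 48, 49, 59, 60, 61, 23, 24, 25, 62]]

/-- The colour of a pair. -/
def colour (u v : Fin 34) : ℕ := (table.getD u.val []).getD v.val 0

theorem colour_symm : ∀ u v : Fin 34, colour u v = colour v u := by decide +kernel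

def tabA : List (List (Fin 34)) :=
  [[0, 1, 2],
   [0, 1, 2],
   [0, 1, 2],
   [0, 1, 2],
   [0, 1, 2],
   [6, 7, 8],
   [0, 1, 2],
   [6, 7, 8],
   [6, 7, 8],
   [3, 4, 5],
   [3, 4, 5],
   [6, 7, 8],
   [3, 4, 5],
   [3, 4, 5],
   [3, 4, 5],
   [3, 4, 5],
   [6, 7, 8],
   [2, 3, 28],
   [0, 4, 29],
   [1, 5, 27],
   [0, 5, 31],
   [1, 3, 32],
   [2, 4, 30],
   [1, 7, 33],
   [2, 8, 33],
   [0, 6, 33],
   [2, 12, 18],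
   [0, 13, 19],
   [1, 14, 20],
   [3, 23, 32],
   [4, 21, 30],
   [5, 22, 31],
   [8, 10, 18],
   [6, 11, 19],
   [7, 9, 20],
   [8, 17, 24],
   [6, 15, 25],
   [7, 16, 26],
   [11, 12, 19],
   [9, 13, 20],
   [10, 14, 18],
   [13, 18, 22],
   [14, 19, 23],
   [12, 20, 21],
   [9, 13, 25],
   [10, 14, 26],
   [11, 12, 24],
   [9, 23, 24],
   [10, 21, 25],
   [11, 22, 26],
   [16, 19, 31],
   [17, 20, 32],
   [15, 18, 30],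
   [9, 15, 18],
   [10, 16, 19],
   [11, 17, 20],
   [11, 24, 29],
   [9, 25, 27],
   [10, 26, 28],
   [17, 11, 12],
   [15, 9, 13],
   [16, 10, 14]]

def tabB : List (List (Fin 34)) :=
  [[12, 13, 14],
   [21, 22, 23],
   [27, 28, 29],
   [18, 19, 20],
   [9, 10, 11],
   [9, 10, 11],
   [24, 25, 26],
   [24, 25, 26],
   [18, 19, 20],
   [24, 25, 26],
   [18, 19, 20],
   [27, 28, 29],
   [30, 31, 32],
   [9, 10, 11],
   [21, 22, 23],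
   [12, 13, 14],
   [15, 16, 17],
   [4, 16, 17],
   [5, 17, 15],
   [3, 15, 16],
   [1, 6, 7],
   [2, 7, 8],
   [0, 8, 6],
   [4, 6, 30],
   [5, 7, 31],
   [3, 8, 32],
   [15, 30, 33],
   [16, 31, 33],
   [17, 32, 33],
   [15, 28, 29],
   [16, 29, 27],
   [17, 27, 28],
   [12, 14, 22],
   [13, 12, 23],
   [14, 13, 21],
   [13, 21, 23],
   [14, 22, 21],
   [12, 23, 22],
   [14, 21, 24],
   [12, 22, 25],
   [13, 23, 26],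
   [21, 29, 32],
   [22, 27, 30],
   [23, 28, 31],
   [15, 23, 27],
   [16, 21, 28],
   [17, 22, 29],
   [31, 32, 33],
   [32, 30, 33],
   [30, 31, 33],
   [25, 29, 32],
   [26, 27, 30],
   [24, 28, 31],
   [10, 16, 19],
   [11, 17, 20],
   [9, 15, 18],
   [20, 26, 28],
   [18, 24, 29],
   [19, 25, 27],
   [27, 32, 25],
   [28, 30, 26],
   [29, 31, 24]]

def A (i : Fin 62) (x : Fin 3) : Fin 34 := (tabA.getD i.val []).getD x.val 0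

def B (i : Fin 62) (x : Fin 3) : Fin 34 := (tabB.getD i.val []).getD x.val 0

theorem inj : ∀ i : Fin 62, ∀ s t : Fin 3 ⊕ Fin 3,
    Sum.elim (A i) (B i) s = Sum.elim (A i) (B i) t → s = t := by decide +kernel

theorem adj : ∀ i : Fin 62, ∀ x y : Fin 3, (i.val < 59 ∨ x ≠ 0 ∨ y ≠ 0) →
    A i x ≠ B i y ∧ colour (A i x) (B i y) = i.val := by decide +kernel

theorem sub : ∀ i : Fin 62, ¬ i.val < 59 →
    (A i 0 ≠ 33 ∧ colour (A i 0) 33 = i.val) ∧ (33 ≠ B i 0 ∧ colour 33 (B i 0) = i.val) ∧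
    ∀ s : Fin 3 ⊕ Fin 3, Sum.elim (A i) (B i) s ≠ 33 := by decide +kernel

theorem pk : Pk (Fin 62) (⊤ : SimpleGraph (Fin 34)) := by
  refine pk_of_colour colour colour_symm (fun i : Fin 62 => i.val) Fin.val_injective ?_
  intro i
  by_cases h : i.val < 59
  · exact nonplanar_of_K33 _ (A i) (B i) (fun s t h => inj i s t h)
      (fun x y => adj i x y (Or.inl h))
  · obtain ⟨h1, h2, h3⟩ := sub i h
    exact nonplanar_of_sub _ (A i) (B i) 33 (fun s t h => inj i s t h) h3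
      (fun x y hxy => adj i x y (Or.inr hxy)) h1 h2

end Pool.Agent.Y807.Coarse.P34
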