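import Pool.Agent.Y807.Coarse.Base

set_option autoImplicit false

/-!
# From `K_p` to `K_{p+18}`

`K₁₉` is the union of `19` copies of `K₃,₃`, and for `p ≡ 1 (mod 3)` every packing of `K_p` by `k`
nonplanar graphs extends to a packing of `K_{p+18}` by `k + 2 p + 17` nonplanar graphs.
-/

namespace Pool.Agent.Y807.Coarse

open SimpleGraph

/-- The colouring of the edges of `K₁₉` by the `19` translates of `{0,1,2} × {3,6,9}`. -/
def c19 (u v : Fin 19) : Fin 19 :=
  if (v.val + 19 - u.val) % 19 ≤ 9 then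
    ⟨(u.val + 19 - (3 - ((v.val + 19 - u.val) % 19) % 3) % 3) % 19, Nat.mod_lt _ (by norm_num)⟩
  else
    ⟨(v.val + 19 - (3 - (19 - (v.val + 19 - u.val) % 19) % 3) % 3) % 19,
      Nat.mod_lt _ (by norm_num)⟩

def a19 (i : Fin 19) (x : Fin 3) : Fin 19 := ⟨(i.val + x.val) % 19, Nat.mod_lt _ (by norm_num)⟩

def b19 (i : Fin 19) (y : Fin 3) : Fin 19 :=
  ⟨(i.val + 3 * (y.val + 1)) % 19, Nat.mod_lt _ (by norm_num)⟩

theorem c19_symm : ∀ u v : Fin 19, c19 u v = c19 v u := by decide +kernel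

theorem inj19 : ∀ i : Fin 19, ∀ s t : Fin 3 ⊕ Fin 3,
    Sum.elim (a19 i) (b19 i) s = Sum.elim (a19 i) (b19 i) t → s = t := by decide +kernel

theorem adj19 : ∀ i : Fin 19, ∀ x y : Fin 3, a19 i x ≠ b19 i y ∧ c19 (a19 i x) (b19 i y) = i := by
  decide +kernel

theorem pk19 : Pk (Fin 19) (⊤ : SimpleGraph (Fin 19)) :=
  pk_of_colour c19 c19_symm id Function.injective_id fun i =>
    nonplanar_of_K33 _ (a19 i) (b19 i) (fun s t h => inj19 i s t h) (fun x y => adj19 i x y)

section step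

variable (a : ℕ)

/-- The vertices of `K_{p+18}`, `p = 3 a + 1`. -/
abbrev W (a : ℕ) : Type := Option (Fin a × Fin 3) ⊕ (Fin 6 × Fin 3)

/-- The graph of the edges between the `3 a` vertices and the `18` vertices. -/
def GB : SimpleGraph (W a) :=
  SimpleGraph.fromRel (fun u v => ∃ z w, u = Sum.inl (some z) ∧ v = Sum.inr w)

def HB (z : Fin a × Fin 6) : SimpleGraph (W a) :=
  SimpleGraph.fromRel (fun u v => ∃ x y, u = Sum.inl (some (z.1, x)) ∧ v = Sum.inr (z.2, y))

theorem pkB : Pk (Fin a × Fin 6) (GB a) := by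
  refine ⟨HB a, ?_, ?_, ?_⟩
  · rintro ⟨s, t⟩
    refine nonplanar_of_K33 _ (fun x => Sum.inl (some (s, x))) (fun y => Sum.inr (t, y)) ?_ ?_
    · rintro (x | x) (y | y) h
      · simp only [Sum.elim_inl, Sum.inl.injEq, Option.some.injEq, Prod.mk.injEq, true_and] at h
        rw [h]
      · simp at h
      · simp at h
      · simp only [Sum.elim_inr, Sum.inr.injEq, Prod.mk.injEq, true_and] at h
        rw [h]
    · intro x y
      unfold HB
      rw [fromRel_adj]
      exact ⟨Sum.inl_ne_inr, Or.inl ⟨x, y, rfl, rfl⟩⟩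
  · rintro ⟨s, t⟩ u v huv
    unfold HB at huv
    unfold GB
    rw [fromRel_adj] at huv ⊢
    refine ⟨huv.1, ?_⟩
    rcases huv.2 with ⟨x, y, h1, h2⟩ | ⟨x, y, h1, h2⟩
    · exact Or.inl ⟨_, _, h1, h2⟩
    · exact Or.inr ⟨_, _, h1, h2⟩
  · rintro ⟨s, t⟩ ⟨s', t'⟩ hne u v hu hv
    apply hne
    unfold HB at hu hv
    rw [fromRel_adj] at hu hv
    rcases hu.2 with ⟨x, y, h1, h2⟩ | ⟨x, y, h1, h2⟩ <;>
      rcases hv.2 with ⟨x', y', h3, h4⟩ | ⟨x', y', h3, h4⟩
    · rw [h1] at h3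
      rw [h2] at h4
      simp only [Sum.inl.injEq, Option.some.injEq, Prod.mk.injEq] at h3
      simp only [Sum.inr.injEq, Prod.mk.injEq] at h4
      rw [h3.1, h4.1]
    · rw [h1] at h4
      exact absurd h4 Sum.inl_ne_inr
    · rw [h1] at h4
      exact absurd h4 Sum.inl_ne_inr
    · rw [h1] at h3
      rw [h2] at h4
      simp only [Sum.inl.injEq, Option.some.injEq, Prod.mk.injEq] at h3
      simp only [Sum.inr.injEq, Prod.mk.injEq] at h4
      rw [h3.1, h4.1]

/-- The embedding of the nineteen vertices of the last part. -/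
def psi : Fin 19 → W a := fun j =>
  if h : j.val < 18 then Sum.inr (⟨j.val / 3, by omega⟩, ⟨j.val % 3, by omega⟩) else Sum.inl none

theorem psi_inj : Function.Injective (psi a) := by
  intro i j h
  unfold psi at h
  split_ifs at h with h1 h2 h2
  · simp only [Sum.inr.injEq, Prod.mk.injEq, Fin.mk.injEq] at h
    apply Fin.ext
    omega
  · apply Fin.ext
    omega

theorem psi_inl {j : Fin 19} {z : Option (Fin a × Fin 3)} (h : psi a j = Sum.inl z) :
    j = 18 ∧ z = none := by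
  unfold psi at h
  split_ifs at h with h1
  refine ⟨Fin.ext (by change j.val = 18; omega), ?_⟩
  exact (Sum.inl_injective h).symm

theorem step {ι V : Type} (h : Pk ι (⊤ : SimpleGraph V)) (e : V ↪ Option (Fin a × Fin 3)) :
    Pk ((ι ⊕ (Fin a × Fin 6)) ⊕ Fin 19) (⊤ : SimpleGraph (W a)) := by
  let GA : SimpleGraph (W a) :=
    (⊤ : SimpleGraph (Option (Fin a × Fin 3))).map
      (⟨Sum.inl, Sum.inl_injective⟩ : Option (Fin a × Fin 3) ↪ W a)
  have hA : Pk ι GA := ((h.map e).mono le_top).map _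
  let GC : SimpleGraph (W a) :=
    (⊤ : SimpleGraph (Fin 19)).map (⟨psi a, psi_inj a⟩ : Fin 19 ↪ W a)
  have hC : Pk (Fin 19) GC := pk19.map _
  have adjA : ∀ u v, GA.Adj u v → ∃ x y, x ≠ y ∧ u = Sum.inl x ∧ v = Sum.inl y := by
    intro u v huv
    rw [SimpleGraph.map_adj] at huv
    obtain ⟨x, y, hxy, rfl, rfl⟩ := huv
    exact ⟨x, y, hxy, rfl, rfl⟩
  have adjB : ∀ u v, (GB a).Adj u v → ∃ z w, (u = Sum.inl (some z) ∧ v = Sum.inr w) ∨
      (v = Sum.inl (some z) ∧ u = Sum.inr w) := by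
    intro u v huv
    unfold GB at huv
    rw [fromRel_adj] at huv
    rcases huv.2 with ⟨z, w, h1, h2⟩ | ⟨z, w, h1, h2⟩
    · exact ⟨z, w, Or.inl ⟨h1, h2⟩⟩
    · exact ⟨z, w, Or.inr ⟨h1, h2⟩⟩
  have adjC : ∀ u v, GC.Adj u v → ∃ x y, x ≠ y ∧ u = psi a x ∧ v = psi a y := by
    intro u v huv
    rw [SimpleGraph.map_adj] at huv
    obtain ⟨x, y, hxy, rfl, rfl⟩ := huv
    exact ⟨x, y, hxy, rfl, rfl⟩
  have hAB : Pk (ι ⊕ (Fin a × Fin 6)) (GA ⊔ GB a) := by
    refine hA.sum (pkB a) le_sup_left le_sup_right ?_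
    intro u v hu hv
    obtain ⟨x, y, -, rfl, rfl⟩ := adjA u v hu
    obtain ⟨z, w, h1 | h1⟩ := adjB _ _ hv
    · exact absurd h1.2 Sum.inl_ne_inr
    · exact absurd h1.2 Sum.inl_ne_inr
  refine hAB.sum hC le_top le_top ?_
  intro u v hu hv
  obtain ⟨x, y, hxy, h1, h2⟩ := adjC u v hv
  rw [SimpleGraph.sup_adj] at hu
  rcases hu with hu | hu
  · obtain ⟨x', y', -, h3, h4⟩ := adjA u v hu
    have e1 := (psi_inl a (h1.symm.trans h3)).1
    have e2 := (psi_inl a (h2.symm.trans h4)).1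
    exact hxy (e1.trans e2.symm)
  · obtain ⟨z, w, h3 | h3⟩ := adjB u v hu
    · have e1 := (psi_inl a (h1.symm.trans h3.1)).2
      exact absurd e1 (by simp)
    · have e1 := (psi_inl a (h2.symm.trans h3.1)).2
      exact absurd e1 (by simp)

end step

theorem step_fin (p k a : ℕ) (hp : p = 3 * a + 1) (h : Pk (Fin k) (⊤ : SimpleGraph (Fin p))) :
    Pk (Fin (k + 2 * p + 17)) (⊤ : SimpleGraph (Fin (p + 18))) := by
  have e : Fin p ≃ Option (Fin a × Fin 3) := Fintype.equivOfCardEq (by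
    rw [Fintype.card_fin, Fintype.card_option, Fintype.card_prod, Fintype.card_fin,
      Fintype.card_fin]
    omega)
  have h1 := step a h e.toEmbedding
  have e2 : W a ≃ Fin (p + 18) := Fintype.equivOfCardEq (by
    rw [Fintype.card_sum, Fintype.card_option, Fintype.card_prod, Fintype.card_prod,
      Fintype.card_fin, Fintype.card_fin, Fintype.card_fin, Fintype.card_fin]
    omega)
  have e3 : Fin (k + 2 * p + 17) ≃ (Fin k ⊕ (Fin a × Fin 6)) ⊕ Fin 19 :=
    Fintype.equivOfCardEq (by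
      rw [Fintype.card_sum, Fintype.card_sum, Fintype.card_prod, Fintype.card_fin,
        Fintype.card_fin, Fintype.card_fin, Fintype.card_fin, Fintype.card_fin]
      omega)
  exact ((h1.map e2.toEmbedding).mono le_top).reindex e3

end Pool.Agent.Y807.Coarse
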